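import Pool.Agent.Q195.LU2

set_option autoImplicit false

open Pool.Agent.Q195.LU

namespace Pool.Agent.Results.MP_ee84c2_an.LUCCNotSUCC

/-- A bounded basis (with bounded biorthogonal functionals) of a Banach space that is LUCC but not
SUCC, for real and for complex scalars. -/
theorem result : ∀ (𝕜 : Type) [RCLike 𝕜], ∃ (X : Type) (_ : NormedAddCommGroup X)
    (_ : NormedSpace 𝕜 X) (_ : CompleteSpace X) (x : ℕ → X),
    IsBasis 𝕜 x ∧ LUCC 𝕜 x ∧ ¬ SUCC 𝕜 x := by
  intro 𝕜 _
  exact main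

end Pool.Agent.Results.MP_ee84c2_an.LUCCNotSUCC
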